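import Pool.Agent.Lib.MP_7f581e_ntR.Reg

/-!
Regular Galois extensions of `k(X)`: primitive elements whose minimal polynomial stays
irreducible over all `K(X)`, and embeddings over substitutions `X ↦ t`.
-/

set_option autoImplicit false
set_option linter.unusedSectionVars false

universe u v w

namespace MP7fK

open Polynomial MP7fR

/-- A regular extension of `k(X)`, `k` perfect, has a primitive element whose minimal polynomial
is irreducible over `K(X)` for all extensions `K` of `k`. -/
theorem exists_gen {k : Type v} [Field k] [PerfectField k] {L : Type w} [Field L]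
    [Algebra (RatFunc k) L] [FiniteDimensional (RatFunc k) L] [IsGalois (RatFunc k) L]
    (hreg : ∀ x : L, (∃ f : Polynomial k, f ≠ 0 ∧
      Polynomial.eval₂ ((algebraMap (RatFunc k) L).comp (algebraMap k (RatFunc k))) x f = 0) →
        ∃ c : k, algebraMap (RatFunc k) L (algebraMap k (RatFunc k) c) = x) :
    ∃ pb : PowerBasis (RatFunc k) L, ∀ (K₁ : Type u) [Field K₁] [Algebra k K₁],
      Irreducible ((minpoly (RatFunc k) pb.gen).map (tau k K₁)) := by
  let _ : Algebra k L := ((algebraMap (RatFunc k) L).comp (algebraMap k (RatFunc k))).toAlgebra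
  have htow : IsScalarTower k (RatFunc k) L := IsScalarTower.of_algebraMap_eq (fun _ => rfl)
  let _ : Algebra k[X] L :=
    ((algebraMap (RatFunc k) L).comp (algebraMap k[X] (RatFunc k))).toAlgebra
  have htow' : IsScalarTower k[X] (RatFunc k) L := IsScalarTower.of_algebraMap_eq (fun _ => rfl)
  have hk : ∀ y : L, IsIntegral k y → ∃ c : k, algebraMap k L c = y := by
    rintro y ⟨g, hg, hgy⟩
    exact hreg y ⟨g, hg.ne_zero, hgy⟩
  obtain ⟨pb, hint⟩ := exists_integral_powerBasis (R := k[X]) (F := RatFunc k) (L := L)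
  have hmin : minpoly (RatFunc k) pb.gen =
      (minpoly k[X] pb.gen).map (algebraMap k[X] (RatFunc k)) :=
    minpoly.isIntegrallyClosed_eq_field_fractions' (RatFunc k) hint
  refine ⟨pb, fun K₁ _ _ => ?_⟩
  have h1 := irreducible_map (K := K₁) hk pb hint
  have h2 : (minpoly (RatFunc k) pb.gen).map (tau k K₁) =
      ((minpoly k[X] pb.gen).map (mapRingHom (algebraMap k K₁))).map
        (algebraMap K₁[X] (RatFunc K₁)) := by
    rw [hmin, Polynomial.map_map, Polynomial.map_map]
    congr 1
    refine RingHom.ext fun p => ?_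
    rw [RingHom.comp_apply, RingHom.comp_apply, tau_algebraMap]
    rfl
  rw [h2]
  exact (((minpoly.monic hint).map _).irreducible_iff_irreducible_map_fraction_map).mp h1

section emb

variable {F : Type v} {L : Type w} {Ω : Type u} [Field F] [Field L] [Field Ω] [Algebra F L]
  [FiniteDimensional F L] [IsGalois F L]

/-- Embeddings into a separably closed field. -/
theorem exists_emb [IsSepClosed Ω] (φ : F →+* Ω) :
    ∃ ψ : L →+* Ω, ∀ x : F, ψ (algebraMap F L x) = φ x := by
  let _ : Algebra F Ω := φ.toAlgebra
  let ψ : L →ₐ[F] Ω := IsSepClosed.lift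
  exact ⟨ψ, fun x => ψ.commutes x⟩

/-- Two embeddings with the same restriction differ by an automorphism. -/
theorem emb_unique (ψ ψ' : L →+* Ω)
    (h : ∀ x : F, ψ (algebraMap F L x) = ψ' (algebraMap F L x)) :
    ∃ s : L ≃ₐ[F] L, ∀ x, ψ' x = ψ (s x) := by
  let _ : Algebra F Ω := (ψ.comp (algebraMap F L)).toAlgebra
  let _ : Algebra L Ω := ψ.toAlgebra
  have htow : IsScalarTower F L Ω := IsScalarTower.of_algebraMap_eq fun _ => rfl
  let ψa : L →ₐ[F] Ω := { ψ' with commutes' := fun x => (h x).symm }
  refine ⟨Normal.algHomEquivAut F Ω L ψa, fun x => ?_⟩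
  have h1 := (Normal.algHomEquivAut F Ω L).symm_apply_apply ψa
  have h2 := DFunLike.congr_fun h1 x
  exact h2.symm

end emb

end MP7fK
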