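import Pool.Agent.Lib.MP_7f581e_ntR.Reg
import Pool.Agent.Lib.MP_7f581e_ntA.Move

/-!
Disjointness of the specialisations of a regular extension at algebraically independent
parameters.
-/

set_option autoImplicit false
set_option linter.unusedSectionVars false

universe u v w

namespace MP7fK

open Polynomial MP7fR MP7fA

section main

variable {k : Type v} [Field k] {L₀ : Type w} [Field L₀] [Algebra (RatFunc k) L₀]
  [FiniteDimensional (RatFunc k) L₀] [IsGalois (RatFunc k) L₀]
  {M L : Type u} [Field M] [Field L] [Algebra M L] [Algebra k M] [Algebra k L]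
  [IsScalarTower k M L] {n : ℕ}

/-- Two homomorphisms from `L₀` agree if they agree on `k`, on the parameter and on a primitive
element. -/
theorem hom_ext_gen (pb : PowerBasis (RatFunc k) L₀) {R : Type*} [Field R] (f g : L₀ →+* R)
    (h : ∀ x : RatFunc k, f (algebraMap _ L₀ x) = g (algebraMap _ L₀ x))
    (hg : f pb.gen = g pb.gen) : f = g := by
  let _ : Algebra (RatFunc k) R := (f.comp (algebraMap _ L₀)).toAlgebra
  let f' : L₀ →ₐ[RatFunc k] R := { f with commutes' := fun x => rfl }
  let g' : L₀ →ₐ[RatFunc k] R := { g with commutes' := fun x => (h x).symm }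
  have h1 : f' = g' := pb.algHom_ext hg
  exact RingHom.ext fun x => DFunLike.congr_fun h1 x

theorem exists_move (pb : PowerBasis (RatFunc k) L₀)
    (hirr : ∀ (K₁ : Type u) [Field K₁] [Algebra k K₁],
      Irreducible ((minpoly (RatFunc k) pb.gen).map (tau k K₁)))
    (e : Fin n → L) (he : AlgebraicIndependent M e) (htr : ∀ j, Transcendental k (e j))
    (ψ : Fin n → L₀ →+* L)
    (hψ : ∀ j (x : RatFunc k), ψ j (algebraMap _ L₀ x) = ev (e j) (htr j) x)
    (hgen : IntermediateField.adjoin M (Set.range e ∪ ⋃ j, Set.range (ψ j)) = ⊤)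
    (j₀ : Fin n) (s : L₀ ≃ₐ[RatFunc k] L₀) :
    ∃ τ : L ≃ₐ[M] L, (∀ j, τ (e j) = e j) ∧ (∀ j, j ≠ j₀ → ∀ x, τ (ψ j x) = ψ j x) ∧
      ∀ x, τ (ψ j₀ x) = ψ j₀ (s x) := by
  classical
  let F₀ : IntermediateField M L := IntermediateField.adjoin M (e '' {j₀}ᶜ)
  have htr0 : Transcendental F₀ (e j₀) :=
    IntermediateField.transcendental_adjoin_iff.mpr (he.transcendental_adjoin (by simp))
  let A : IntermediateField F₀ L := algebraicClosure F₀ L
  have htrA : Transcendental A (e j₀) := htr0.extendScalars A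
  have hMA : ∀ a : M, algebraMap M L a ∈ A := by
    intro a
    rw [IsScalarTower.algebraMap_apply M F₀ L]
    exact A.algebraMap_mem _
  have hkA : ∀ a : k, algebraMap k L a ∈ A := by
    intro a
    rw [IsScalarTower.algebraMap_apply k M L]
    exact hMA _
  have hF₀A : ∀ x : L, x ∈ F₀ → x ∈ A := fun x hx => A.algebraMap_mem (⟨x, hx⟩ : F₀)
  have hAe : ∀ j, j ≠ j₀ → e j ∈ A := fun j hj =>
    hF₀A _ (IntermediateField.subset_adjoin _ _ ⟨j, hj, rfl⟩)
  let _ : Algebra (RatFunc A) L := (ev (e j₀) htrA).toAlgebra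
  have halgX : algebraMap (RatFunc A) L RatFunc.X = e j₀ := ev_X _ _
  have halgC : ∀ a : A, algebraMap (RatFunc A) L (algebraMap A (RatFunc A) a) = (a : L) :=
    fun a => ev_C _ _ a
  let _ : Algebra k A := ((algebraMap k L).codRestrict A hkA).toAlgebra
  have hkAL : ∀ a : k, ((algebraMap k A a : A) : L) = algebraMap k L a := fun _ => rfl
  -- compatibility
  have hcomp : ∀ x : RatFunc k, algebraMap (RatFunc A) L (tau k A x) = ev (e j₀) (htr j₀) x := by
    intro x
    have h1 : (algebraMap (RatFunc A) L).comp (tau k A) = ev (e j₀) (htr j₀) := by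
      apply ringHom_ext_ratFunc
      · intro a
        rw [RingHom.comp_apply, tau_algebraMap', halgC, hkAL, ev_C]
      · rw [RingHom.comp_apply, ← RatFunc.algebraMap_X, tau_algebraMap, Polynomial.map_X,
          RatFunc.algebraMap_X, RatFunc.algebraMap_X, halgX, ev_X]
    exact DFunLike.congr_fun h1 x
  set f := (minpoly (RatFunc k) pb.gen).map (tau k A) with hf
  have hfirr : Irreducible f := hirr A
  have hfm : f.Monic := (minpoly.monic pb.isIntegral_gen).map _
  have hroot : ∀ z : L₀, aeval z (minpoly (RatFunc k) pb.gen) = 0 → aeval (ψ j₀ z) f = 0 := by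
    intro z hz
    rw [hf, aeval_def, eval₂_map]
    have h1 : (algebraMap (RatFunc A) L).comp (tau k A) = (ψ j₀).comp (algebraMap _ L₀) :=
      RingHom.ext fun x => by
        rw [RingHom.comp_apply, hcomp, RingHom.comp_apply, hψ]
    rw [h1, ← hom_eval₂, ← aeval_def, hz, map_zero]
  have hg1 : aeval (ψ j₀ pb.gen) f = 0 := hroot _ (minpoly.aeval _ _)
  have hg2 : aeval (ψ j₀ (s pb.gen)) f = 0 := hroot _ (by
    have h1 := minpoly.aeval (RatFunc k) (s pb.gen)
    rwa [minpoly.algEquiv_eq s pb.gen] at h1)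
  have hmin : minpoly (RatFunc A) (ψ j₀ pb.gen) = f :=
    (minpoly.eq_of_irreducible_of_monic hfirr hg1 hfm).symm
  -- generation
  have hAψ : ∀ j, j ≠ j₀ → ∀ x, ψ j x ∈ A := by
    intro j hj x
    change ψ j x ∈ algebraicClosure F₀ L
    rw [mem_algebraicClosure_iff]
    have hF₀e : ∀ r : RatFunc k, ψ j (algebraMap _ L₀ r) ∈ F₀ := by
      intro r
      rw [hψ]
      refine ev_mem (e j) (htr j) F₀.toSubfield (fun a => ?_)
        (IntermediateField.subset_adjoin _ _ ⟨j, hj, rfl⟩) r
      rw [IsScalarTower.algebraMap_apply k M L]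
      exact F₀.algebraMap_mem _
    let κ : RatFunc k →+* F₀ := ((ψ j).comp (algebraMap _ L₀)).codRestrict F₀ hF₀e
    have hm := (minpoly.monic (Algebra.IsIntegral.isIntegral (R := RatFunc k) x)).map κ
    refine ⟨_, hm.ne_zero, ?_⟩
    rw [aeval_def, eval₂_map]
    have h1 : (algebraMap F₀ L).comp κ = (ψ j).comp (algebraMap _ L₀) := rfl
    rw [h1, ← hom_eval₂, ← aeval_def, minpoly.aeval, map_zero]
  let T := IntermediateField.adjoin (RatFunc A) {ψ j₀ pb.gen}
  have hTA : ∀ a : L, a ∈ A → a ∈ T := by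
    intro a ha
    have h1 := T.algebraMap_mem (algebraMap A (RatFunc A) ⟨a, ha⟩)
    rwa [halgC] at h1
  have hTe : e j₀ ∈ T := by
    rw [← halgX]
    exact T.algebraMap_mem _
  have hTg : ψ j₀ pb.gen ∈ T := IntermediateField.mem_adjoin_simple_self _ _
  have hTψ : ∀ x, ψ j₀ x ∈ T := by
    intro x
    have h1 : x ∈ Algebra.adjoin (RatFunc k) {pb.gen} := by
      rw [pb.adjoin_gen_eq_top]
      exact Algebra.mem_top
    induction h1 using Algebra.adjoin_induction with
    | mem x hx =>
      rw [Set.mem_singleton_iff.mp hx]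
      exact hTg
    | algebraMap r =>
      rw [hψ, ← hcomp]
      exact T.algebraMap_mem _
    | add x y _ _ hx hy =>
      rw [map_add]
      exact T.add_mem hx hy
    | mul x y _ _ hx hy =>
      rw [map_mul]
      exact T.mul_mem hx hy
  have hTtop : T = ⊤ := by
    let T' : IntermediateField M L := T.toSubfield.toIntermediateField fun m => hTA _ (hMA m)
    have hT' : (⊤ : IntermediateField M L) ≤ T' := by
      rw [← hgen, IntermediateField.adjoin_le_iff]
      rintro x (⟨j, rfl⟩ | hx)
      · by_cases hj : j = j₀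
        · rw [hj]
          exact hTe
        · exact hTA _ (hAe j hj)
      · obtain ⟨j, x, rfl⟩ := Set.mem_iUnion.mp hx
        by_cases hj : j = j₀
        · rw [hj]
          exact hTψ x
        · exact hTA _ (hAψ j hj x)
    rw [eq_top_iff]
    intro x _
    exact hT' (IntermediateField.mem_top)
  have hint : IsIntegral (RatFunc A) (ψ j₀ pb.gen) := ⟨f, hfm, hg1⟩
  have hfd : FiniteDimensional (RatFunc A) L := by
    have h1 : FiniteDimensional (RatFunc A) T := IntermediateField.adjoin.finiteDimensional hint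
    have h2 : FiniteDimensional (RatFunc A) (⊤ : IntermediateField (RatFunc A) L) := by
      rw [← hTtop]
      exact h1
    exact IntermediateField.topEquiv.toLinearEquiv.finiteDimensional
  let pbT := IntermediateField.adjoin.powerBasis hint
  have hlift : aeval (ψ j₀ (s pb.gen)) (minpoly (RatFunc A) pbT.gen) = 0 := by
    rw [IntermediateField.adjoin.powerBasis_gen, IntermediateField.minpoly_gen, hmin]
    exact hg2
  let τ₀ : T →ₐ[RatFunc A] L := pbT.lift (ψ j₀ (s pb.gen)) hlift
  let τ₁ : L →ₐ[RatFunc A] L := τ₀.comp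
    (((IntermediateField.equivOfEq hTtop).symm.toAlgHom).comp
      (IntermediateField.topEquiv.symm.toAlgHom))
  have hτ₁ : τ₁ (ψ j₀ pb.gen) = ψ j₀ (s pb.gen) := by
    change τ₀ _ = _
    have h1 : ((IntermediateField.equivOfEq hTtop).symm
        (IntermediateField.topEquiv.symm (ψ j₀ pb.gen))) = pbT.gen := by
      apply Subtype.ext
      rfl
    change τ₀ ((IntermediateField.equivOfEq hTtop).symm
        (IntermediateField.topEquiv.symm (ψ j₀ pb.gen))) = _
    rw [h1]
    exact pbT.lift_gen _ hlift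
  have hbij : Function.Bijective τ₁ :=
    ⟨τ₁.toRingHom.injective, (LinearMap.injective_iff_surjective (f := τ₁.toLinearMap)).mp
      τ₁.toRingHom.injective⟩
  let τ : L ≃ₐ[RatFunc A] L := AlgEquiv.ofBijective τ₁ hbij
  have hτg : τ (ψ j₀ pb.gen) = ψ j₀ (s pb.gen) := hτ₁
  have hτA : ∀ a : L, a ∈ A → τ a = a := by
    intro a ha
    have h1 := τ.commutes (algebraMap A (RatFunc A) ⟨a, ha⟩)
    rwa [halgC] at h1
  have hτe : τ (e j₀) = e j₀ := by
    rw [← halgX]
    exact τ.commutes _
  refine ⟨AlgEquiv.ofRingEquiv (f := (τ : L ≃+* L)) fun m => hτA _ (hMA m), ?_, ?_, ?_⟩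
  · intro j
    change τ (e j) = e j
    by_cases hj : j = j₀
    · rw [hj]
      exact hτe
    · exact hτA _ (hAe j hj)
  · intro j hj x
    exact hτA _ (hAψ j hj x)
  · intro x
    have h1 : ((τ : L →+* L).comp (ψ j₀)) = (ψ j₀).comp (s : L₀ →+* L₀) := by
      apply hom_ext_gen pb
      · intro r
        change τ (ψ j₀ (algebraMap _ L₀ r)) = ψ j₀ (s (algebraMap _ L₀ r))
        rw [AlgEquiv.commutes, hψ, ← hcomp]
        exact τ.commutes _
      · exact hτg
    exact DFunLike.congr_fun h1 x

end main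

end MP7fK
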