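import Pool.Agent.Lib.MP_7f581e_ntX.Core
import Pool.Agent.Lib.MP_7f581e_ntK.Emb
import Pool.Agent.Lib.MP_7f581e_ntK.Move

/-!
Realisation of an extension with kernel `S ^ n`, `S` a group with only inner automorphisms which
occurs regularly, over the field of invariants of a permutation action.
-/

set_option autoImplicit false
set_option linter.unusedSectionVars false

universe u

namespace MP7fK

open Polynomial Equiv MP7fR MP7fA

section core

variable {k : Type} [Field k] {L₀ : Type} [Field L₀] [Algebra (RatFunc k) L₀]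
  [FiniteDimensional (RatFunc k) L₀] [IsGalois (RatFunc k) L₀]
  {K M F N : Type u} [Field K] [Field M] [Field F] [Field N] [Algebra K M]
  [Algebra F N] [Algebra M N] [FiniteDimensional F N] [IsGalois F N] {n : ℕ} [Algebra k K]

/-- The regular permutation representation. -/
def regP (G : Type) [Group G] : G →* Perm G := MulAction.toPermHom G G

theorem regP_apply {G : Type} [Group G] (s t : G) : regP G s t = s * t := rfl

theorem regP_injective (G : Type) [Group G] : Function.Injective (regP G) := by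
  intro s t h
  have h1 := congrArg (fun p : Perm G => p 1) h
  simpa [regP_apply] using h1

theorem core_aux [Algebra K F] (Ω : Type u) [Field Ω] [Algebra N Ω] [Algebra F Ω]
    [IsScalarTower F N Ω] [Algebra M Ω] [IsScalarTower M N Ω] [Algebra K Ω] [IsScalarTower K M Ω]
    [Algebra k Ω] [IsScalarTower k K Ω]
    [IsSepClosed Ω] [IsGalois F Ω]
    (pb : PowerBasis (RatFunc k) L₀)
    (hirr : ∀ (K₁ : Type u) [Field K₁] [Algebra k K₁],
      Irreducible ((minpoly (RatFunc k) pb.gen).map (tau k K₁)))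
    (ι : (M ≃ₐ[K] M) ≃* (N ≃ₐ[F] N))
    (act : (M ≃ₐ[K] M) →* Perm (Fin n)) (e : Fin n → N)
    (hKFN : ∀ a : K, algebraMap M N (algebraMap K M a) = algebraMap F N (algebraMap K F a))
    (hι : ∀ g m, ι g (algebraMap M N m) = algebraMap M N (g m))
    (hιe : ∀ g j, ι g (e j) = e (act g j))
    (hind : AlgebraicIndependent M e)
    (hgenN : IntermediateField.adjoin M (Set.range e) = ⊤)
    {E : Type} [Group E] (cls : E →* (M ≃ₐ[K] M)) (T : E → Fin n → (L₀ ≃ₐ[RatFunc k] L₀))
    (hT1 : ∀ e e' j, T (e * e') j = T e (act (cls e') j) * T e' j)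
    (hT3 : ∀ (g : M ≃ₐ[K] M) (τ : Fin n → (L₀ ≃ₐ[RatFunc k] L₀)),
      ∃! e : E, cls e = g ∧ T e = τ) :
    ∃ (L : Type u) (_ : Field L) (_ : Algebra F L) (_ : FiniteDimensional F L)
      (_ : IsGalois F L) (e' : (L ≃ₐ[F] L) ≃* E) (j : M →+* L),
      (∀ a : K, j (algebraMap K M a) = algebraMap F L (algebraMap K F a)) ∧
      ∀ (σ : L ≃ₐ[F] L) (x : M), σ (j x) = j (cls (e' σ) x) := by
  classical
  let _ : Algebra k M := ((algebraMap K M).comp (algebraMap k K)).toAlgebra
  have htowkKM : IsScalarTower k K M := IsScalarTower.of_algebraMap_eq fun _ => rfl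
  have htowkMΩ : IsScalarTower k M Ω := IsScalarTower.of_algebraMap_eq fun a => by
    rw [IsScalarTower.algebraMap_apply k K Ω, IsScalarTower.algebraMap_apply K M Ω]
    rfl
  obtain ⟨EE, hEE⟩ : ∃ EE : Fin n → Ω, ∀ j, EE j = algebraMap N Ω (e j) := ⟨_, fun _ => rfl⟩
  have hEE' : EE = algebraMap N Ω ∘ e := funext hEE
  have hindΩ : AlgebraicIndependent M EE := by
    rw [hEE']
    exact hind.map' (f := IsScalarTower.toAlgHom M N Ω) (algebraMap N Ω).injective
  have htrE : ∀ j, Transcendental k (EE j) := fun j =>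
    (hindΩ.transcendental j).restrictScalars (algebraMap k M).injective
  choose ψ hψ using fun j => exists_emb (L := L₀) (ev (EE j) (htrE j))
  -- the projection
  let π : (Ω ≃ₐ[F] Ω) →* (M ≃ₐ[K] M) :=
    ι.symm.toMonoidHom.comp (AlgEquiv.restrictNormalHom (F := F) (K₁ := Ω) N)
  have hπN : ∀ (γ : Ω ≃ₐ[F] Ω) (x : N), γ (algebraMap N Ω x) = algebraMap N Ω (ι (π γ) x) := by
    intro γ x
    have h1 : ι (π γ) = AlgEquiv.restrictNormalHom (F := F) (K₁ := Ω) N γ :=
      ι.apply_symm_apply _
    rw [h1]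
    exact (AlgEquiv.restrictNormal_commutes γ N x).symm
  have hπM : ∀ (γ : Ω ≃ₐ[F] Ω) (m : M), γ (algebraMap M Ω m) = algebraMap M Ω (π γ m) := by
    intro γ m
    rw [IsScalarTower.algebraMap_apply M N Ω, hπN, hι, ← IsScalarTower.algebraMap_apply]
  have hπK : ∀ (γ : Ω ≃ₐ[F] Ω) (a : K), γ (algebraMap K Ω a) = algebraMap K Ω a := by
    intro γ a
    rw [IsScalarTower.algebraMap_apply K M Ω, hπM, AlgEquiv.commutes]
  have hπk : ∀ (γ : Ω ≃ₐ[F] Ω) (a : k), γ (algebraMap k Ω a) = algebraMap k Ω a := by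
    intro γ a
    rw [IsScalarTower.algebraMap_apply k K Ω, hπK]
  have hπE : ∀ (γ : Ω ≃ₐ[F] Ω) (j : Fin n), γ (EE j) = EE (act (π γ) j) := by
    intro γ j
    rw [hEE, hπN, hιe, hEE]
  have hπev : ∀ (γ : Ω ≃ₐ[F] Ω) (j : Fin n) (r : RatFunc k),
      γ (ev (EE j) (htrE j) r) = ev (EE (act (π γ) j)) (htrE _) r := by
    intro γ j r
    have h1 : ((γ : Ω →+* Ω).comp (ev (EE j) (htrE j))) = ev (EE (act (π γ) j)) (htrE _) := by
      apply ringHom_ext_ratFunc
      · intro a
        rw [RingHom.comp_apply, ev_C, ev_C]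
        exact hπk γ a
      · rw [RingHom.comp_apply, ev_X, ev_X]
        exact hπE γ j
    exact DFunLike.congr_fun h1 r
  have hπsurj : Function.Surjective π :=
    ι.symm.surjective.comp (AlgEquiv.restrictNormalHom_surjective (F := F) (K₁ := N) Ω)
  have hπ1 : ∀ γ : Ω ≃ₐ[F] Ω, π γ = 1 ↔ ∀ x : N, γ (algebraMap N Ω x) = algebraMap N Ω x := by
    intro γ
    constructor
    · intro h x
      rw [hπN, h, map_one]
      rfl
    · intro h
      apply ι.injective
      rw [map_one]
      ext x
      apply (algebraMap N Ω).injective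
      rw [← hπN, h]
      rfl
  have hfdN : FiniteDimensional F (IsScalarTower.toAlgHom F N Ω).fieldRange :=
    (AlgEquiv.ofInjectiveField (IsScalarTower.toAlgHom F N Ω)).toLinearEquiv.finiteDimensional
  let G₀ := L₀ ≃ₐ[RatFunc k] L₀
  have hfinG : Finite G₀ := inferInstance
  let rE : G₀ ≃* (regP G₀).range := MonoidHom.ofInjective (regP_injective G₀)
  have hrE : ∀ s t : G₀, ((rE s : (regP G₀).range) : Perm G₀) t = s * t := fun s t => rfl
  suffices hsuff : ∃ (Φ : (Ω ≃ₐ[F] Ω) →* E) (L : IntermediateField F Ω), Function.Surjective Φ ∧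
      FiniteDimensional F L ∧ Φ.ker = L.fixingSubgroup ∧ ∀ γ, cls (Φ γ) = π γ by
    obtain ⟨Φ, L, h1, h2, h3, h4⟩ := hsuff
    refine MP7fE.sol_of_hom (algebraMap M Ω) (fun a => ?_) cls Φ h1 L h3 (fun γ m => ?_)
    · rw [IsScalarTower.algebraMap_apply M N Ω, hKFN, ← IsScalarTower.algebraMap_apply F N Ω]
    · rw [hπM, h4]
  refine MP7fX.assembly (regP G₀).range (1 : (regP G₀).range →* PUnit) π hπsurj
    (IsScalarTower.toAlgHom F N Ω).fieldRange ?_ act (fun _ _ => 1)
    (fun j s => ψ j (s pb.gen)) ?_ ?_ ?_ cls (fun e j => rE (T e j)) ?_ (fun _ _ => rfl) ?_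
  · ext γ
    rw [MonoidHom.mem_ker, hπ1, IntermediateField.mem_fixingSubgroup_iff]
    constructor
    · rintro h _ ⟨x, rfl⟩
      exact h x
    · intro h x
      exact h _ ⟨x, rfl⟩
  · intro j s t hst
    have h1 : s pb.gen = t pb.gen := (ψ j).injective hst
    have h2 : (s : L₀ →ₐ[RatFunc k] L₀) = t := pb.algHom_ext h1
    exact AlgEquiv.coe_toAlgHom_injective h2
  · -- permutations
    intro γ j
    obtain ⟨s, hs⟩ := emb_unique (ψ (act (π γ) j)) ((γ : Ω →+* Ω).comp (ψ j)) (fun x => by
      rw [RingHom.comp_apply, hψ, hψ]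
      exact (hπev γ j x).symm)
    refine ⟨rE s, fun t => ?_, rfl⟩
    rw [hrE]
    exact hs (t pb.gen)
  · -- moves
    rintro j₀ ⟨_, s, rfl⟩ -
    let S : Set Ω := Set.range EE ∪ ⋃ j, Set.range (ψ j)
    let L : IntermediateField M Ω := IntermediateField.adjoin M S
    have heL : ∀ j, EE j ∈ L := fun j =>
      IntermediateField.subset_adjoin _ _ (Or.inl ⟨j, rfl⟩)
    have hψL : ∀ j x, ψ j x ∈ L := fun j x =>
      IntermediateField.subset_adjoin _ _ (Or.inr (Set.mem_iUnion.mpr ⟨j, x, rfl⟩))
    have hkL : ∀ a : k, algebraMap k Ω a ∈ L := by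
      intro a
      rw [IsScalarTower.algebraMap_apply k M Ω]
      exact L.algebraMap_mem _
    let _ : Algebra k L := ((algebraMap k Ω).codRestrict L hkL).toAlgebra
    have htowL : IsScalarTower k M L := IsScalarTower.of_algebraMap_eq fun a => by
      apply Subtype.ext
      exact IsScalarTower.algebraMap_apply k M Ω a
    have htowLΩ : IsScalarTower k L Ω := IsScalarTower.of_algebraMap_eq fun a => rfl
    have htrL : ∀ j, Transcendental k (⟨EE j, heL j⟩ : L) := by
      intro j h0
      apply htrE j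
      have h1 := h0.algHom (IsScalarTower.toAlgHom k L Ω)
      exact h1
    obtain ⟨τ, hτ1, hτ2, hτ3⟩ := exists_move pb hirr (fun j => (⟨EE j, heL j⟩ : L))
      (AlgebraicIndependent.of_comp (f := L.val) hindΩ) htrL
      (fun j => (ψ j).codRestrict L (hψL j))
      (fun j x => by
        apply Subtype.ext
        change ψ j (algebraMap _ L₀ x) = algebraMap L Ω (ev _ (htrL j) x)
        rw [hψ]
        have h1 : ev (EE j) (htrE j) = (algebraMap L Ω).comp (ev _ (htrL j)) := by
          apply ringHom_ext_ratFunc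
          · intro a
            rw [RingHom.comp_apply, ev_C, ev_C]
            rfl
          · rw [RingHom.comp_apply, ev_X, ev_X]
            rfl
        rw [h1]
        rfl)
      (by
        apply IntermediateField.map_injective L.val
        rw [IntermediateField.adjoin_map, ← AlgHom.fieldRange_eq_map,
          IntermediateField.fieldRange_val, Set.image_union, ← Set.range_comp, Set.image_iUnion]
        change IntermediateField.adjoin M (Set.range EE ∪ _) = IntermediateField.adjoin M S
        congr 2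
        apply Set.iUnion_congr
        intro j
        rw [← Set.range_comp]
        rfl) j₀ s
    obtain ⟨τ', h1, h2⟩ := MP7fX.exists_lift_move (F := F) e hgenN L
      (fun j => by rw [← hEE]; exact heL j) τ (fun j => by
        have h3 := hτ1 j
        have h4 : (⟨algebraMap N Ω (e j), by rw [← hEE]; exact heL j⟩ : L) = ⟨EE j, heL j⟩ :=
          Subtype.ext (hEE j).symm
        rw [h4]
        exact h3)
    refine ⟨τ', (hπ1 τ').mpr h1, ?_, ?_⟩
    · intro j hj t
      have h3 := h2 ⟨ψ j (t pb.gen), hψL j _⟩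
      have h4 := hτ2 j hj (t pb.gen)
      change τ' (ψ j (t pb.gen)) = _ at h3
      rw [h3]
      exact congrArg Subtype.val h4
    · intro t
      change τ' (ψ j₀ (t pb.gen)) = ψ j₀ ((s * t) pb.gen)
      have h3 := h2 ⟨ψ j₀ (t pb.gen), hψL j₀ _⟩
      have h4 := hτ3 (t pb.gen)
      change τ' (ψ j₀ (t pb.gen)) = _ at h3
      rw [h3]
      exact congrArg Subtype.val h4
  · intro a b j
    rw [hT1, map_mul]
  · intro g τ _
    obtain ⟨a, ⟨ha1, ha2⟩, ha3⟩ := hT3 g (fun j => rE.symm (τ j))
    refine ⟨a, ⟨ha1, ?_⟩, fun b hb => ha3 b ⟨hb.1, ?_⟩⟩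
    · funext j
      rw [ha2]
      exact rE.apply_symm_apply _
    · funext j
      have h5 := congrFun hb.2 j
      change rE (T b j) = τ j at h5
      rw [← h5]
      exact (rE.symm_apply_apply _).symm

end core

end MP7fK
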