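import Pool.Agent.Lib.MP_7f581e_ntE.SpecialMv
import Pool.Agent.Lib.MP_7f581e_ntA.TwistMul
import Pool.Agent.Lib.MP_7f581e_ntX.Aut
import Pool.Agent.Lib.MP_7f581e_ntK.Core

/-!
Embedding problems with kernel a power of a complete simple group which occurs over `k(X)`, `k` a
finite field.
-/

set_option autoImplicit false
set_option linter.unusedSectionVars false

universe u

namespace MP7fK

open Polynomial Equiv MP7fR MP7fA

open scoped commutatorElement

section core

variable {k : Type} [Field k] {L₀ : Type} [Field L₀] [Algebra (RatFunc k) L₀]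
  [FiniteDimensional (RatFunc k) L₀] [IsGalois (RatFunc k) L₀]
  {K M F N : Type u} [Field K] [Field M] [Field F] [Field N] [Algebra K M]
  [Algebra F N] [Algebra M N] [FiniteDimensional F N] [IsGalois F N] {n : ℕ} [Algebra k K]

/-- The main step. -/
theorem core [Algebra K F]
    (pb : PowerBasis (RatFunc k) L₀)
    (hirr : ∀ (K₁ : Type u) [Field K₁] [Algebra k K₁],
      Irreducible ((minpoly (RatFunc k) pb.gen).map (tau k K₁)))
    (ι : (M ≃ₐ[K] M) ≃* (N ≃ₐ[F] N))
    (act : (M ≃ₐ[K] M) →* Perm (Fin n)) (e : Fin n → N)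
    (hKFN : ∀ a : K, algebraMap M N (algebraMap K M a) = algebraMap F N (algebraMap K F a))
    (hι : ∀ g m, ι g (algebraMap M N m) = algebraMap M N (g m))
    (hιe : ∀ g j, ι g (e j) = e (act g j))
    (hind : AlgebraicIndependent M e)
    (hgenN : IntermediateField.adjoin M (Set.range e) = ⊤)
    {E : Type} [Group E] (cls : E →* (M ≃ₐ[K] M)) (T : E → Fin n → (L₀ ≃ₐ[RatFunc k] L₀))
    (hT1 : ∀ e e' j, T (e * e') j = T e (act (cls e') j) * T e' j)
    (hT3 : ∀ (g : M ≃ₐ[K] M) (τ : Fin n → (L₀ ≃ₐ[RatFunc k] L₀)),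
      ∃! e : E, cls e = g ∧ T e = τ) :
    ∃ (L : Type u) (_ : Field L) (_ : Algebra F L) (_ : FiniteDimensional F L)
      (_ : IsGalois F L) (e' : (L ≃ₐ[F] L) ≃* E) (j : M →+* L),
      (∀ a : K, j (algebraMap K M a) = algebraMap F L (algebraMap K F a)) ∧
      ∀ (σ : L ≃ₐ[F] L) (x : M), σ (j x) = j (cls (e' σ) x) := by
  let Ω := SeparableClosure N
  let _ : Algebra F Ω := ((algebraMap N Ω).comp (algebraMap F N)).toAlgebra
  have h1 : IsScalarTower F N Ω := IsScalarTower.of_algebraMap_eq fun _ => rfl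
  let _ : Algebra M Ω := ((algebraMap N Ω).comp (algebraMap M N)).toAlgebra
  have h2 : IsScalarTower M N Ω := IsScalarTower.of_algebraMap_eq fun _ => rfl
  let _ : Algebra K Ω := ((algebraMap M Ω).comp (algebraMap K M)).toAlgebra
  have h3 : IsScalarTower K M Ω := IsScalarTower.of_algebraMap_eq fun _ => rfl
  let _ : Algebra k Ω := ((algebraMap K Ω).comp (algebraMap k K)).toAlgebra
  have h4 : IsScalarTower k K Ω := IsScalarTower.of_algebraMap_eq fun _ => rfl
  have h5 : Algebra.IsSeparable F Ω := Algebra.IsSeparable.trans F N Ω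
  have h6 : IsSepClosure F Ω := ⟨inferInstance, h5⟩
  have h7 : IsGalois F Ω := inferInstance
  exact core_aux Ω pb hirr ι act e hKFN hι hιe hind hgenN cls T hT1 hT3

end core

theorem solvesOver_complete {k : Type} [Field k] [PerfectField k] {S : Type} [Group S] [Finite S]
    [IsSimpleGroup S] (hc : Subgroup.center S = ⊥)
    (hout : ∀ α : S ≃* S, ∃ h : S, ∀ a, α a = h * a * h⁻¹) (hS : OccursRegularly S k) {n : ℕ}
    {E : Type} [Group E] [Finite E] (N : Subgroup E) [N.Normal] (φ : N ≃* (Fin n → S))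
    {K : Type u} [Field K] [Algebra k K] :
    MP7fE.SolvesOver K (FractionRing (MvPolynomial (Fin n) K)) (QuotientGroup.mk' N) := by
  intro M _ _ hfd hgal i
  obtain ⟨L₀, _, _, hfd₀, hgal₀, ⟨ε⟩, hreg⟩ := hS
  obtain ⟨pb, hirr⟩ := exists_gen hreg
  have haut : ∀ α : S ≃* S, ∃! h : (L₀ ≃ₐ[RatFunc k] L₀), ∀ a,
      ε.symm.toMonoidHom (α a) = h * ε.symm.toMonoidHom a * h⁻¹ := by
    intro α
    obtain ⟨h, hh⟩ := hout α
    refine ⟨ε.symm h, fun a => ?_, fun g hg => ?_⟩
    · change ε.symm (α a) = ε.symm h * ε.symm a * (ε.symm h)⁻¹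
      rw [hh, map_mul, map_mul, map_inv]
    · have h1 : h⁻¹ * ε g ∈ Subgroup.center S := by
        rw [Subgroup.mem_center_iff]
        intro a
        have h2 := hg a
        change ε.symm (α a) = g * ε.symm a * g⁻¹ at h2
        have h3 : h * a * h⁻¹ = ε g * a * (ε g)⁻¹ := by
          rw [← hh]
          have h4 := congrArg ε h2
          rwa [MulEquiv.apply_symm_apply, map_mul, map_mul, map_inv,
            MulEquiv.apply_symm_apply] at h4
        have h5 : ε g * a = h * a * h⁻¹ * ε g := by
          rw [h3]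
          group
        rw [mul_assoc, h5]
        group
      rw [hc, Subgroup.mem_bot, inv_mul_eq_one] at h1
      rw [h1, MulEquiv.symm_apply_apply]
  obtain ⟨act, T, hT1, -, hT3⟩ := MP7fX.exists_aut_data hc ε.symm.toMonoidHom
    ε.symm.injective haut N φ
  obtain ⟨Nf, _, _, _, ι, e, h1, h2, h3, h4, h5, h6', h7'⟩ :=
    Pool.Agent.Lib.MP_7f581e_ntA.exists_twisted_field_mul (K := K) (M := M)
      (act.comp i.toMonoidHom) (fun _ _ => 1) (fun _ _ _ => (mul_one _).symm)
  refine core (F := FractionRing (MvPolynomial (Fin n) K)) (N := Nf) pb hirr ι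
    (act.comp i.toMonoidHom) e h7' h3 ?_ h5 h6'
    (i.symm.toMonoidHom.comp (QuotientGroup.mk' N)) T ?_ ?_
  · intro g j
    rw [h4]
    simp
  · intro e e' j
    rw [hT1]
    congr 2
    change act (e' : E ⧸ N) j = act (i (i.symm (e' : E ⧸ N))) j
    rw [MulEquiv.apply_symm_apply]
  · intro γ τ
    obtain ⟨e, he⟩ := QuotientGroup.mk_surjective (i γ)
    obtain ⟨e', ⟨he1, he2⟩, he3⟩ := hT3 e τ (fun j => by
      exact ⟨ε ((T e j)⁻¹ * τ j), ε.symm_apply_apply _⟩)
    refine ⟨e', ⟨?_, he2⟩, fun e'' he'' => he3 e'' ⟨?_, he''.2⟩⟩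
    · change i.symm (e' : E ⧸ N) = γ
      rw [he1, he, MulEquiv.symm_apply_apply]
    · have h7 : i.symm (e'' : E ⧸ N) = γ := he''.1
      rw [he, ← h7, MulEquiv.apply_symm_apply]

theorem abelianization_card {S : Type} [Group S] [Finite S] [IsSimpleGroup S]
    (hc : Subgroup.center S = ⊥) : (Nat.card (Abelianization S)).primeFactors.card < 1 := by
  have h1 : commutator S = ⊤ := by
    rcases (inferInstance : (commutator S).Normal).eq_bot_or_eq_top with h | h
    · exfalso
      have h2 : Subgroup.center S = ⊤ := by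
        rw [eq_top_iff]
        intro x _
        rw [Subgroup.mem_center_iff]
        intro y
        have h3 : ⁅y, x⁆ ∈ commutator S := Subgroup.commutator_mem_commutator
          (Subgroup.mem_top _) (Subgroup.mem_top _)
        rw [h, Subgroup.mem_bot, commutatorElement_eq_one_iff_mul_comm] at h3
        exact h3
      rw [hc] at h2
      exact bot_ne_top h2
    · exact h
  have h2 : Nat.card (Abelianization S) = 1 := by
    have h3 : Subsingleton (Abelianization S) := by
      refine ⟨fun a b => ?_⟩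
      obtain ⟨a, rfl⟩ := QuotientGroup.mk_surjective a
      obtain ⟨b, rfl⟩ := QuotientGroup.mk_surjective b
      refine QuotientGroup.eq.mpr ?_
      rw [h1]
      exact Subgroup.mem_top _
    exact Nat.card_unique
  rw [h2]
  simp

/-- Over a Hilbertian field `K` containing the finite field `k`, embedding problems whose kernel
is a power of a nonabelian simple group `S` with only inner automorphisms which occurs over
`k(X)` have proper solutions. -/
theorem solves_of_complete {k : Type} [Field k] [Finite k] {S : Type} [Group S] [Finite S]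
    [IsSimpleGroup S] (hc : Subgroup.center S = ⊥)
    (hout : ∀ α : S ≃* S, ∃ h : S, ∀ a, α a = h * a * h⁻¹) (hS : Occurs S (RatFunc k)) {n : ℕ}
    {E : Type} [Group E] [Finite E] (N : Subgroup E) [N.Normal] (φ : N ≃* (Fin n → S))
    {K : Type u} [Field K] [Algebra k K] (hK : IsHilbertian K) :
    MP7fE.Solves K (QuotientGroup.mk' N) := by
  have h1 : Occurs (Fin 1 → S) (RatFunc k) :=
    MP7fS.occurs_congr (MulEquiv.funUnique (Fin 1) S).symm hS
  have h2 : OccursRegularly S k := (per_group (abelianization_card hc) h1).1 k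
  exact MP7fE.solves_of_mv hK _ _ (solvesOver_complete hc hout h2 N φ)

end MP7fK
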